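import Pool.Agent.helper55.RI.Spec

/-!
# Project ri, module Q2: the set accepted by the decoder is r.e.
-/

set_option autoImplicit false

namespace Pool.Agent.RI

open Pool.Agent.helper62 Prog Function Pool.Agent.helper81.PL

theorem Q2_drop (a : ℕ) (x : W) : (pre a x).drop (a + 1) = x := by
  unfold pre
  rw [List.drop_append]
  simp

theorem Q2_ex (v : W) (a b : ℕ) :
    (∃ z : W, v = pre a (pre b z)) ↔ v = pre a (pre b ((v.drop (a + 1)).drop (b + 1))) := by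
  constructor
  · rintro ⟨z, rfl⟩
    rw [Q2_drop, Q2_drop]
  · intro h
    exact ⟨_, h⟩

theorem Q2_exc (hR3 : R3_stmt) (P : ℕ → W → W) (hP : Computable fun p : ℕ × W => P p.1 p.2)
    (hex : ∀ (v : W) (a b : ℕ), (∃ z : W, v = P a (P b z)) ↔
      v = P a (P b ((v.drop (a + 1)).drop (b + 1))))
    {α : Type} [Primcodable α] (c : α → W) (k T : α → ℕ) (hc : Computable c) (hk : Computable k)
    (hT : Computable T) : ComputablePred (fun a => ∃ z : W, c a = P (k a) (P (T a) z)) := by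
  have hdrop : Computable₂ (List.drop : ℕ → W → W) := Primrec.list_drop.to_comp
  have d1 : Computable (fun a => (c a).drop (k a + 1)) := hdrop.comp (Computable.succ.comp hk) hc
  have d2 : Computable (fun a => ((c a).drop (k a + 1)).drop (T a + 1)) :=
    hdrop.comp (Computable.succ.comp hT) d1
  have d3 : Computable (fun a => P (T a) (((c a).drop (k a + 1)).drop (T a + 1))) :=
    hP.comp (hT.pair d2)
  have d4 : Computable (fun a => P (k a) (P (T a) (((c a).drop (k a + 1)).drop (T a + 1)))) :=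
    hP.comp (hk.pair d3)
  have d5 := hR3.2.2.2.1 α W c _ hc d4
  exact d5.of_eq fun a => (hex _ _ _).symm

theorem Q2_fl (hR3 : R3_stmt) (Fl : ℕ → ℕ → ℕ → Prop)
    (hFl : ComputablePred fun p : ℕ × ℕ × ℕ => Fl p.1 p.2.1 p.2.2)
    {α : Type} [Primcodable α] (b k t : α → ℕ) (hb : Computable b) (hk : Computable k)
    (ht : Computable t) : ComputablePred (fun a => Fl (b a) (k a) (t a)) :=
  hR3.2.1 α (ℕ × ℕ × ℕ) (fun a => (b a, k a, t a)) (fun p => Fl p.1 p.2.1 p.2.2)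
    (hb.pair (hk.pair ht)) hFl

theorem Q2_val (M P : ℕ → W → W) (f : W → W) (hM : Computable fun p : ℕ × W => M p.1 p.2)
    (hP : Computable fun p : ℕ × W => P p.1 p.2) (hf : Computable f)
    {α : Type} [Primcodable α] (k : α → ℕ) (q : α → ℕ × W) (hk : Computable k)
    (hq : Computable q) : Computable (fun a => M (k a) (f (P (q a).1 (q a).2))) :=
  hM.comp (hk.pair (hf.comp (hP.comp hq)))

/-- The decidable part. -/
theorem Q2_dec (hR3 : R3_stmt) (M P : ℕ → W → W) (f : W → W)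
    (Fl : ℕ → ℕ → ℕ → Prop) (hM : Computable fun p : ℕ × W => M p.1 p.2)
    (hP : Computable fun p : ℕ × W => P p.1 p.2) (hf : Computable f)
    (hFl : ComputablePred fun p : ℕ × ℕ × ℕ => Fl p.1 p.2.1 p.2.2)
    (hex : ∀ (v : W) (a b : ℕ), (∃ z : W, v = P a (P b z)) ↔
      v = P a (P b ((v.drop (a + 1)).drop (b + 1))))
    {α : Type} [Primcodable α] (q : α → ℕ × W) (k k' : α → ℕ) (hq : Computable q)
    (hk : Computable k) (hk' : Computable k') :
    ComputablePred (fun a => ∀ T' < (M (k' a) (f (P (q a).1 (q a).2))).length,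
        (∃ z' : W, M (k' a) (f (P (q a).1 (q a).2)) = P (k' a) (P T' z')) →
          ¬ Fl (q a).1 (k a) T') := by
  refine (hR3.2.2.1 α (fun a T' =>
        (∃ z' : W, M (k' a) (f (P (q a).1 (q a).2)) = P (k' a) (P T' z')) →
          ¬ Fl (q a).1 (k a) T')
      (fun a => (M (k' a) (f (P (q a).1 (q a).2))).length) ?_
      (Computable.list_length.comp (Q2_val M P f hM hP hf k' q hk' hq))).1
  have u1 : Computable (fun x : α × ℕ => q x.1) := hq.comp Computable.fst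
  have u2 : Computable (fun x : α × ℕ => k x.1) := hk.comp Computable.fst
  have u3 : Computable (fun x : α × ℕ => k' x.1) := hk'.comp Computable.fst
  have a1 := Q2_exc hR3 P hP hex (fun x : α × ℕ => M (k' x.1) (f (P (q x.1).1 (q x.1).2)))
    (fun x : α × ℕ => k' x.1) (fun x : α × ℕ => x.2)
    (Q2_val M P f hM hP hf (fun x : α × ℕ => k' x.1) (fun x : α × ℕ => q x.1) u3 u1) u3
    Computable.snd
  have a2 := Q2_fl hR3 Fl hFl (fun x : α × ℕ => (q x.1).1) (fun x : α × ℕ => k x.1)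
    (fun x : α × ℕ => x.2) (Computable.fst.comp u1) u2 Computable.snd
  have a3 := (hR3.1 _ _ _ a1 a1).2.2
  have a4 := (hR3.1 _ _ _ a2 a2).2.2
  have a5 := (hR3.1 _ _ _ a3 a4).2.1
  exact ComputablePred.of_eq a5 fun w => imp_iff_not_or.symm

/-- The abstract form of the statement. -/
theorem Q2_gen (hR2 : R2_stmt) (hR3 : R3_stmt) (M P : ℕ → W → W) (f : W → W)
    (Fl : ℕ → ℕ → ℕ → Prop) (K : Set W) (hM : Computable fun p : ℕ × W => M p.1 p.2)
    (hP : Computable fun p : ℕ × W => P p.1 p.2) (hf : Computable f)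
    (hFl : ComputablePred fun p : ℕ × ℕ × ℕ => Fl p.1 p.2.1 p.2.2) (hK : RE K)
    (hex : ∀ (v : W) (a b : ℕ), (∃ z : W, v = P a (P b z)) ↔
      v = P a (P b ((v.drop (a + 1)).drop (b + 1)))) :
    REPred (fun p : ℕ × W => ∃ (k T : ℕ) (z : W), M k (f (P p.1 p.2)) = P k (P T z) ∧ z ∈ K ∧
    (∀ k' < k, ∃ t, Fl p.1 k' t) ∧
    ∀ k' < p.2.length + 1, ∀ T' < (M k' (f (P p.1 p.2))).length,
      (∃ z' : W, M k' (f (P p.1 p.2)) = P k' (P T' z')) → ¬ Fl p.1 k T') := by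
  have pk : Computable (fun x : (ℕ × W) × (ℕ × ℕ × W) => x.2.1) :=
    Computable.fst.comp Computable.snd
  have pT : Computable (fun x : (ℕ × W) × (ℕ × ℕ × W) => x.2.2.1) :=
    Computable.fst.comp (Computable.snd.comp Computable.snd)
  have pz : Computable (fun x : (ℕ × W) × (ℕ × ℕ × W) => x.2.2.2) :=
    Computable.snd.comp (Computable.snd.comp Computable.snd)
  have pb : Computable (fun x : (ℕ × W) × (ℕ × ℕ × W) => x.1.1) :=
    Computable.fst.comp Computable.fst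
  have py : Computable (fun x : (ℕ × W) × (ℕ × ℕ × W) => x.1.2) :=
    Computable.snd.comp Computable.fst
  -- the equation for the label
  have i1 : ComputablePred (fun x : (ℕ × W) × (ℕ × ℕ × W) =>
      M x.2.1 (f (P x.1.1 x.1.2)) = P x.2.1 (P x.2.2.1 x.2.2.2)) := by
    have e1 := Q2_val M P f hM hP hf (fun x : (ℕ × W) × (ℕ × ℕ × W) => x.2.1)
      (fun x => x.1) pk Computable.fst
    have e2 : Computable (fun x : (ℕ × W) × (ℕ × ℕ × W) => P x.2.2.1 x.2.2.2) :=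
      hP.comp (pT.pair pz)
    have e3 : Computable (fun x : (ℕ × W) × (ℕ × ℕ × W) => P x.2.1 (P x.2.2.1 x.2.2.2)) :=
      hP.comp (pk.pair e2)
    exact hR3.2.2.2.1 _ W _ _ e1 e3
  have i2 : REPred (fun x : (ℕ × W) × (ℕ × ℕ × W) => x.2.2.2 ∈ K) :=
    hR2.2.1 _ W (fun x : (ℕ × W) × (ℕ × ℕ × W) => x.2.2.2) (fun z => z ∈ K) pz hK
  have i3 : REPred (fun x : (ℕ × W) × (ℕ × ℕ × W) => ∀ k' < x.2.1, ∃ t, Fl x.1.1 k' t) := by
    refine hR2.2.2.2.1 _ (fun (x : (ℕ × W) × (ℕ × ℕ × W)) k' => ∃ t, Fl x.1.1 k' t)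
      (fun x => x.2.1) ?_ pk
    refine hR2.2.2.1 _ ℕ (fun (u : ((ℕ × W) × (ℕ × ℕ × W)) × ℕ) t => Fl u.1.1.1 u.2 t) ?_
    exact (Q2_fl hR3 Fl hFl (fun w : (((ℕ × W) × (ℕ × ℕ × W)) × ℕ) × ℕ => w.1.1.1.1)
      (fun w => w.1.2) (fun w => w.2) (pb.comp (Computable.fst.comp Computable.fst))
      (Computable.snd.comp Computable.fst) Computable.snd).to_re
  have i4 : ComputablePred (fun x : (ℕ × W) × (ℕ × ℕ × W) => ∀ k' < x.1.2.length + 1,
      ∀ T' < (M k' (f (P x.1.1 x.1.2))).length,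
        (∃ z' : W, M k' (f (P x.1.1 x.1.2)) = P k' (P T' z')) → ¬ Fl x.1.1 x.2.1 T') := by
    refine (hR3.2.2.1 _ (fun (x : (ℕ × W) × (ℕ × ℕ × W)) k' =>
      ∀ T' < (M k' (f (P x.1.1 x.1.2))).length,
        (∃ z' : W, M k' (f (P x.1.1 x.1.2)) = P k' (P T' z')) → ¬ Fl x.1.1 x.2.1 T')
      (fun x => x.1.2.length + 1) ?_
      (Computable.succ.comp (Computable.list_length.comp py))).1
    exact Q2_dec hR3 M P f Fl hM hP hf hFl hex
      (fun u : ((ℕ × W) × (ℕ × ℕ × W)) × ℕ => u.1.1)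
      (fun u : ((ℕ × W) × (ℕ × ℕ × W)) × ℕ => u.1.2.1)
      (fun u : ((ℕ × W) × (ℕ × ℕ × W)) × ℕ => u.2)
      (Computable.fst.comp Computable.fst) (pk.comp Computable.fst) Computable.snd
  have j1 := (hR2.1 _ _ _ i3 i4.to_re).1
  have j2 := (hR2.1 _ _ _ i2 j1).1
  have j3 := (hR2.1 _ _ _ i1.to_re j2).1
  have j4 := hR2.2.2.1 (ℕ × W) (ℕ × ℕ × W) (fun a b =>
    M b.1 (f (P a.1 a.2)) = P b.1 (P b.2.1 b.2.2) ∧ b.2.2 ∈ K ∧
      (∀ k' < b.1, ∃ t, Fl a.1 k' t) ∧ ∀ k' < a.2.length + 1,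
      ∀ T' < (M k' (f (P a.1 a.2))).length,
        (∃ z' : W, M k' (f (P a.1 a.2)) = P k' (P T' z')) → ¬ Fl a.1 b.1 T') j3
  refine j4.of_eq fun a => ?_
  constructor
  · rintro ⟨⟨k, T, z⟩, h⟩
    exact ⟨k, T, z, h⟩
  · rintro ⟨k, T, z, h⟩
    exact ⟨⟨k, T, z⟩, h⟩

attribute [local irreducible] E in
theorem Q2_mk (hX8 : X8_stmt) : Computable (fun p : ℕ × W => mk p.1 p.2) := by
  have h2 : Computable (fun p : ℕ × W => (Nat.unpair p.1).2) :=
    (Primrec.snd.comp (Primrec.unpair.comp Primrec.fst)).to_comp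
  exact Computable.comp hX8 (h2.pair Computable.snd)

theorem Q2 (hQ1 : Q1_stmt) (hR2 : R2_stmt) (hR3 : R3_stmt) (hR5 : R5_stmt) (hX8 : X8_stmt)
    (hK1 : K1_stmt) : Q2_stmt := by
  intro f hf hh
  exact Q2_gen hR2 hR3 mk pre f (Fal f) KS (Q2_mk hX8) hR5.1 hf (hQ1 f hf hh) hK1.1 Q2_ex

end Pool.Agent.RI
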