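import Pool.Agent.helper55.RI.Spec

/-!
# Project ri, module R1: recursively enumerable predicates by computable monotone stage predicates
-/

set_option autoImplicit false

namespace Pool.Agent.RI

open Pool.Agent.helper62 Prog Function Pool.Agent.helper81.PL

theorem R1_fwd (α : Type) [Primcodable α] (p : α → Prop) (h : REPred p) :
    ∃ T : α × ℕ → Bool, Computable T ∧ (∀ a n m, n ≤ m → T (a, n) = true → T (a, m) = true) ∧
      ∀ a, p a ↔ ∃ n, T (a, n) = true := by
  obtain ⟨c, hc⟩ := Nat.Partrec.Code.exists_code.mp h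
  have hdom : ∀ a, p a ↔ (c.eval (Encodable.encode a)).Dom := by
    intro a
    rw [hc]
    simp [Part.assert]
  refine ⟨fun x => (Nat.Partrec.Code.evaln x.2 c (Encodable.encode x.1)).isSome, ?_, ?_, ?_⟩
  · have h1 : Primrec fun x : α × ℕ => Nat.Partrec.Code.evaln x.2 c (Encodable.encode x.1) :=
      Nat.Partrec.Code.primrec_evaln.comp
        (((Primrec.snd).pair (Primrec.const c)).pair (Primrec.encode.comp Primrec.fst))
    exact (Primrec.option_isSome.comp h1).to_comp
  · intro a n m hnm hT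
    simp only [Option.isSome_iff_exists] at hT ⊢
    obtain ⟨x, hx⟩ := hT
    exact ⟨x, Nat.Partrec.Code.evaln_mono hnm hx⟩
  · intro a
    rw [hdom, Part.dom_iff_mem]
    simp only [Option.isSome_iff_exists]
    constructor
    · rintro ⟨x, hx⟩
      obtain ⟨k, hk⟩ := Nat.Partrec.Code.evaln_complete.mp hx
      exact ⟨k, x, hk⟩
    · rintro ⟨k, x, hk⟩
      exact ⟨x, Nat.Partrec.Code.evaln_complete.mpr ⟨k, hk⟩⟩

theorem R1_bwd (α : Type) [Primcodable α] (p : α → Prop) (T : α × ℕ → Bool) (hT : Computable T)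
    (h : ∀ a, p a ↔ ∃ n, T (a, n) = true) : REPred p := by
  have h1 : Partrec fun a : α => Nat.rfind fun n => Part.some (T (a, n)) := by
    apply Partrec.rfind
    exact hT.partrec
  refine h1.dom_re.of_eq fun a => ?_
  rw [Nat.rfind_dom, h]
  constructor
  · rintro ⟨n, hn, _⟩
    exact ⟨n, (Part.mem_some_iff.mp hn).symm⟩
  · rintro ⟨n, hn⟩
    exact ⟨n, Part.mem_some_iff.mpr hn.symm, fun _ => trivial⟩

theorem R1 : R1_stmt := by
  intro α _ p
  constructor
  · exact R1_fwd α p
  · rintro ⟨T, hT, _, h⟩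
    exact R1_bwd α p T hT h

end Pool.Agent.RI
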